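import Mathlib

/-!
# Gaussian moments with a frequency
-/

set_option autoImplicit false

open Complex MeasureTheory

namespace Pool.Agent.X244.BS

/-- `e^{-y² - 2 i p y}` -/
noncomputable def Ep (p y : ℝ) : ℂ := cexp (-(y : ℂ) ^ 2 - 2 * I * p * y)

theorem Ep_norm (p y : ℝ) : ‖Ep p y‖ = Real.exp (-y ^ 2) := by
  rw [Ep, Complex.norm_exp]
  congr 1
  simp [Complex.sub_re, Complex.mul_re, ← Complex.ofReal_pow]

theorem int_pow (p : ℝ) (k : ℕ) : Integrable (fun y : ℝ => (y : ℂ) ^ k * Ep p y) := by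
  have h := integrable_rpow_mul_exp_neg_mul_sq (b := 1) one_pos (s := (k : ℝ))
    (by have : (0 : ℝ) ≤ k := Nat.cast_nonneg k
        linarith)
  refine h.mono ?_ (Filter.Eventually.of_forall fun y => le_of_eq ?_)
  · refine Continuous.aestronglyMeasurable ?_
    unfold Ep
    fun_prop
  · rw [norm_mul, norm_mul, Ep_norm, norm_pow, Complex.norm_real, Real.rpow_natCast, norm_pow,
      Real.norm_of_nonneg (Real.exp_pos (-1 * y ^ 2)).le]
    congr 2
    ring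

/-- moments -/
noncomputable def M (p : ℝ) (k : ℕ) : ℂ := ∫ y : ℝ, (y : ℂ) ^ k * Ep p y

theorem M_zero (p : ℝ) : M p 0 = (√Real.pi : ℂ) * cexp (-(p : ℂ) ^ 2) := by
  have h := integral_cexp_quadratic (b := -1) (by simp) (-2 * I * p) 0
  unfold M Ep
  have e1 : (fun y : ℝ => (y : ℂ) ^ 0 * cexp (-(y : ℂ) ^ 2 - 2 * I * p * y))
      = fun y : ℝ => cexp (-1 * (y : ℂ) ^ 2 + -2 * I * p * y + 0) := by
    funext y
    rw [pow_zero, one_mul]
    congr 1
    ring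
  rw [e1, h]
  congr 1
  · rw [neg_neg, div_one, Real.sqrt_eq_rpow, Complex.ofReal_cpow Real.pi_pos.le]
    norm_num
  · congr 1
    have : (-2 * I * (p : ℂ)) ^ 2 = -4 * (p : ℂ) ^ 2 := by
      rw [mul_pow, mul_pow, I_sq]
      ring
    rw [this]
    ring

theorem hasDeriv (p : ℝ) (k : ℕ) (y : ℝ) : HasDerivAt (fun y : ℝ => (y : ℂ) ^ k * Ep p y)
    ((k : ℂ) * ((y : ℂ) ^ (k - 1) * Ep p y) - 2 * ((y : ℂ) ^ (k + 1) * Ep p y)
      - 2 * I * p * ((y : ℂ) ^ k * Ep p y)) y := by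
  have h0 : HasDerivAt (fun y : ℝ => (y : ℂ)) 1 y := Complex.ofRealCLM.hasDerivAt
  have h1 : HasDerivAt (fun y : ℝ => (y : ℂ) ^ k) ((k : ℂ) * (y : ℂ) ^ (k - 1) * 1) y := h0.pow k
  have h2 : HasDerivAt (fun y : ℝ => -(y : ℂ) ^ 2 - 2 * I * p * y)
      (-((2 : ℕ) * (y : ℂ) ^ (2 - 1) * 1) - 2 * I * p * 1) y :=
    ((h0.pow 2).neg).sub (h0.const_mul (2 * I * p))
  have h3 : HasDerivAt (fun y : ℝ => Ep p y)
      (Ep p y * (-((2 : ℕ) * (y : ℂ) ^ (2 - 1) * 1) - 2 * I * p * 1)) y := h2.cexp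
  refine (h1.mul h3).congr_deriv ?_
  push_cast
  ring

theorem M_rec (p : ℝ) (k : ℕ) :
    (k : ℂ) * M p (k - 1) - 2 * M p (k + 1) - 2 * I * p * M p k = 0 := by
  have i1 := (int_pow p (k - 1)).const_mul (k : ℂ)
  have i2 := (int_pow p (k + 1)).const_mul (2 : ℂ)
  have i3 := (int_pow p k).const_mul (2 * I * p)
  have h := integral_eq_zero_of_hasDerivAt_of_integrable (hasDeriv p k) ((i1.sub i2).sub i3)
    (int_pow p k)
  have i12 : Integrable (fun y : ℝ => (k : ℂ) * ((y : ℂ) ^ (k - 1) * Ep p y)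
    - 2 * ((y : ℂ) ^ (k + 1) * Ep p y)) := i1.sub i2
  rw [integral_sub i12 i3, integral_sub i1 i2, integral_const_mul, integral_const_mul,
    integral_const_mul] at h
  exact h

theorem M_one (p : ℝ) : M p 1 = (-I * p) * M p 0 := by
  have h := M_rec p 0
  simp only [Nat.cast_zero, zero_mul, zero_add, zero_sub] at h
  linear_combination (-1 / 2) * h

theorem M_two (p : ℝ) : M p 2 = (1 / 2 - (p : ℂ) ^ 2) * M p 0 := by
  have h := M_rec p 1
  have h1 := M_one p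
  norm_num at h
  linear_combination (-1 / 2) * h + (-I * p) * h1 + (p : ℂ) ^ 2 * M p 0 * I_sq

theorem M_three (p : ℝ) : M p 3 = (-I * p * (3 / 2 - (p : ℂ) ^ 2)) * M p 0 := by
  have h := M_rec p 2
  have h1 := M_one p
  have h2 := M_two p
  norm_num at h
  linear_combination (-1 / 2) * h + (-I * p) * h2 + h1

theorem M_four (p : ℝ) : M p 4 = (3 / 4 - 3 * (p : ℂ) ^ 2 + (p : ℂ) ^ 4) * M p 0 := by
  have h := M_rec p 3
  have h2 := M_two p
  have h3 := M_three p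
  norm_num at h
  linear_combination (-1 / 2) * h + (3 / 2) * h2 + (-I * p) * h3
    + (p : ℂ) ^ 2 * (3 / 2 - (p : ℂ) ^ 2) * M p 0 * I_sq

/-- the general moment formula -/
theorem moments (p : ℝ) (A B C D E : ℂ) :
    ∫ y : ℝ, (A + B * y + C * y ^ 2 + D * y ^ 3 + E * y ^ 4) * Ep p y
      = (A + B * (-I * p) + C * (1 / 2 - (p : ℂ) ^ 2) + D * (-I * p * (3 / 2 - (p : ℂ) ^ 2))
        + E * (3 / 4 - 3 * (p : ℂ) ^ 2 + (p : ℂ) ^ 4)) * ((√Real.pi : ℂ) * cexp (-(p : ℂ) ^ 2)) := by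
  have e : (fun y : ℝ => (A + B * y + C * y ^ 2 + D * y ^ 3 + E * y ^ 4) * Ep p y)
      = fun y : ℝ => A * ((y : ℂ) ^ 0 * Ep p y) + B * ((y : ℂ) ^ 1 * Ep p y)
        + C * ((y : ℂ) ^ 2 * Ep p y) + D * ((y : ℂ) ^ 3 * Ep p y)
        + E * ((y : ℂ) ^ 4 * Ep p y) := by
    funext y
    ring
  have i0 := (int_pow p 0).const_mul A
  have i1 := (int_pow p 1).const_mul B
  have i2 := (int_pow p 2).const_mul C
  have i3 := (int_pow p 3).const_mul D
  have i4 := (int_pow p 4).const_mul E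
  have j1 : Integrable (fun y : ℝ => A * ((y : ℂ) ^ 0 * Ep p y) + B * ((y : ℂ) ^ 1 * Ep p y)) :=
    i0.add i1
  have j2 : Integrable (fun y : ℝ => A * ((y : ℂ) ^ 0 * Ep p y) + B * ((y : ℂ) ^ 1 * Ep p y)
    + C * ((y : ℂ) ^ 2 * Ep p y)) := j1.add i2
  have j3 : Integrable (fun y : ℝ => A * ((y : ℂ) ^ 0 * Ep p y) + B * ((y : ℂ) ^ 1 * Ep p y)
    + C * ((y : ℂ) ^ 2 * Ep p y) + D * ((y : ℂ) ^ 3 * Ep p y)) := j2.add i3
  rw [e, integral_add j3 i4, integral_add j2 i3, integral_add j1 i2, integral_add i0 i1,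
    integral_const_mul, integral_const_mul, integral_const_mul, integral_const_mul,
    integral_const_mul]
  change A * M p 0 + B * M p 1 + C * M p 2 + D * M p 3 + E * M p 4 = _
  rw [M_one, M_two, M_three, M_four, ← M_zero]
  ring

theorem moments_real (A B C D E : ℝ) :
    ∫ y : ℝ, (A + B * y + C * y ^ 2 + D * y ^ 3 + E * y ^ 4) * Real.exp (-y ^ 2)
      = (A + C / 2 + 3 * E / 4) * √Real.pi := by
  have h := moments 0 A B C D E
  have e : (fun y : ℝ => ((A : ℂ) + B * y + C * y ^ 2 + D * y ^ 3 + E * y ^ 4) * Ep 0 y)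
      = fun y : ℝ => (((A + B * y + C * y ^ 2 + D * y ^ 3 + E * y ^ 4) * Real.exp (-y ^ 2) : ℝ) : ℂ)
      := by
    funext y
    unfold Ep
    push_cast
    congr 2
    ring
  rw [e, integral_complex_ofReal] at h
  apply Complex.ofReal_injective
  rw [h]
  push_cast
  rw [show cexp (-(0 : ℂ) ^ 2) = 1 by simp]
  ring

end Pool.Agent.X244.BS
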