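import Pool.Agent.X244.BS.A

/-!
# Beam-splitter states, Wigner functions, finite-rank states given by kernels
-/

set_option autoImplicit false

open Complex MeasureTheory

namespace Pool.Agent.X244.BS

/-- Fock-bounded vector: a polynomial times `e^{-x²/2}`, i.e. a finite linear combination of the
Fock states (Hermite functions). -/
def FockBounded (ψ : ℝ → ℂ) : Prop :=
  ∃ P : Polynomial ℂ, ∀ x : ℝ, ψ x = P.eval (x : ℂ) * cexp (-(x : ℂ) ^ 2 / 2)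

/-- unit vector of `L²(ℝ)` -/
def Normalised (ψ : ℝ → ℂ) : Prop := ∫ x : ℝ, ‖ψ x‖ ^ 2 = 1

/-- Wigner function `(1/π) ∫ K(x+y, x-y) e^{-2ipy} dy` of the operator with kernel `K` -/
noncomputable def wigner (K : ℝ → ℝ → ℂ) (x p : ℝ) : ℂ :=
  (1 / (Real.pi : ℂ)) * ∫ y : ℝ, K (x + y) (x - y) * cexp (-(2 * I * p * y))

/-- Finite-rank state given by its continuous kernel `K(x,y) = ∑ f_k(x) conj(f_k(y))` with
`f_k ∈ L²` continuous and `∑ ‖f_k‖² = 1` (positive semidefinite of trace one). -/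
def IsState (K : ℝ → ℝ → ℂ) : Prop :=
  ∃ (n : ℕ) (f : Fin n → ℝ → ℂ), (∀ k, Continuous (f k)) ∧
    (∀ k, Integrable (fun x => ‖f k x‖ ^ 2)) ∧ (∑ k, ∫ x : ℝ, ‖f k x‖ ^ 2 = 1) ∧
    ∀ x y, K x y = ∑ k, f k x * star (f k y)

/-- nonnegative Wigner function -/
def WignerPositive (K : ℝ → ℝ → ℂ) : Prop := ∀ x p : ℝ, ∃ r : ℝ, 0 ≤ r ∧ wigner K x p = (r : ℂ)

/-- kernel of `Tr₂ [U (|ψ⟩⟨ψ| ⊗ |φ⟩⟨φ|) U†]`, where
`(U (ψ ⊗ φ)) (x, z) = ψ ((x - z)/√2) φ ((x + z)/√2)` -/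
noncomputable def beamSplitter (ψ φ : ℝ → ℂ) (x y : ℝ) : ℂ :=
  ∫ z : ℝ, (ψ ((x - z) / √2) * φ ((x + z) / √2)) * star (ψ ((y - z) / √2) * φ ((y + z) / √2))

theorem int_pow_real (k : ℕ) : Integrable (fun y : ℝ => y ^ k * Real.exp (-y ^ 2)) := by
  have h := integrable_rpow_mul_exp_neg_mul_sq (b := 1) one_pos (s := (k : ℝ))
    (by have : (0 : ℝ) ≤ k := Nat.cast_nonneg k
        linarith)
  refine h.congr (Filter.Eventually.of_forall fun y => ?_)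
  simp only [Real.rpow_natCast, neg_mul, one_mul]

theorem int_real (A B C D E : ℝ) : Integrable
    (fun y : ℝ => (A + B * y + C * y ^ 2 + D * y ^ 3 + E * y ^ 4) * Real.exp (-y ^ 2)) := by
  have i := (((((int_pow_real 0).const_mul A).add ((int_pow_real 1).const_mul B)).add
    ((int_pow_real 2).const_mul C)).add ((int_pow_real 3).const_mul D)).add
    ((int_pow_real 4).const_mul E)
  refine i.congr (Filter.Eventually.of_forall fun y => ?_)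
  simp only [Pi.add_apply]
  ring

/-- the vectors `s (α + β x + γ x²) e^{-x²/2}` -/
noncomputable def vec (s α β γ : ℝ) (x : ℝ) : ℂ :=
  ((s * (α + β * x + γ * x ^ 2) * Real.exp (-x ^ 2 / 2) : ℝ) : ℂ)

theorem vec_cont (s α β γ : ℝ) : Continuous (vec s α β γ) := by
  unfold vec
  fun_prop

theorem exp_half (x : ℝ) : Real.exp (-x ^ 2 / 2) ^ 2 = Real.exp (-x ^ 2) := by
  rw [← Real.exp_nat_mul]
  congr 1
  push_cast
  ring

theorem vec_norm (s α β γ x : ℝ) : ‖vec s α β γ x‖ ^ 2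
    = (s ^ 2 * α ^ 2 + s ^ 2 * (2 * α * β) * x + s ^ 2 * (β ^ 2 + 2 * α * γ) * x ^ 2
      + s ^ 2 * (2 * β * γ) * x ^ 3 + s ^ 2 * γ ^ 2 * x ^ 4) * Real.exp (-x ^ 2) := by
  unfold vec
  rw [Complex.norm_real, Real.norm_eq_abs, sq_abs, mul_pow, exp_half]
  ring

theorem vec_int (s α β γ : ℝ) : Integrable (fun x => ‖vec s α β γ x‖ ^ 2) := by
  simp only [vec_norm]
  exact int_real _ _ _ _ _

theorem vec_integral (s α β γ : ℝ) : ∫ x : ℝ, ‖vec s α β γ x‖ ^ 2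
    = s ^ 2 * √Real.pi * (α ^ 2 + (β ^ 2 + 2 * α * γ) / 2 + 3 * γ ^ 2 / 4) := by
  simp only [vec_norm]
  rw [moments_real]
  ring

/-- the kernels used -/
noncomputable def Kg (w a b c : ℝ) (x y : ℝ) : ℂ :=
  ((w / √Real.pi * (a + b * (x * y) + (2 * x ^ 2 - c) * (2 * y ^ 2 - c))
    * Real.exp (-(x ^ 2 + y ^ 2) / 2) : ℝ) : ℂ)

theorem sqrtpi : 0 < √Real.pi := Real.sqrt_pos.2 Real.pi_pos

theorem exp_two (x y : ℝ) : Real.exp (-(x ^ 2 + y ^ 2) / 2)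
    = Real.exp (-x ^ 2 / 2) * Real.exp (-y ^ 2 / 2) := by
  rw [← Real.exp_add]
  congr 1
  ring

theorem Kg_state (w a b c : ℝ) (hw : 0 ≤ w) (ha : 0 ≤ a) (hb : 0 ≤ b)
    (h : w * (a + b / 2 + (3 - 2 * c + c ^ 2)) = 1) : IsState (Kg w a b c) := by
  have h0 : √(w * a / √Real.pi) ^ 2 = w * a / √Real.pi :=
    Real.sq_sqrt (div_nonneg (mul_nonneg hw ha) sqrtpi.le)
  have h1 : √(w * b / √Real.pi) ^ 2 = w * b / √Real.pi :=
    Real.sq_sqrt (div_nonneg (mul_nonneg hw hb) sqrtpi.le)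
  have h2 : √(w / √Real.pi) ^ 2 = w / √Real.pi := Real.sq_sqrt (div_nonneg hw sqrtpi.le)
  have hp := sqrtpi.ne'
  refine ⟨3, ![vec (√(w * a / √Real.pi)) 1 0 0, vec (√(w * b / √Real.pi)) 0 1 0,
    vec (√(w / √Real.pi)) (-c) 0 2], ?_, ?_, ?_, ?_⟩
  · intro k
    fin_cases k
    · exact vec_cont _ _ _ _
    · exact vec_cont _ _ _ _
    · exact vec_cont _ _ _ _
  · intro k
    fin_cases k
    · exact vec_int _ _ _ _
    · exact vec_int _ _ _ _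
    · exact vec_int _ _ _ _
  · rw [Fin.sum_univ_three]
    change (∫ x : ℝ, ‖vec (√(w * a / √Real.pi)) 1 0 0 x‖ ^ 2)
      + (∫ x : ℝ, ‖vec (√(w * b / √Real.pi)) 0 1 0 x‖ ^ 2)
      + (∫ x : ℝ, ‖vec (√(w / √Real.pi)) (-c) 0 2 x‖ ^ 2) = 1
    rw [vec_integral, vec_integral, vec_integral, h0, h1, h2]
    field_simp
    linarith
  · intro x y
    rw [Fin.sum_univ_three]
    change Kg w a b c x y = vec (√(w * a / √Real.pi)) 1 0 0 x
        * star (vec (√(w * a / √Real.pi)) 1 0 0 y)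
      + vec (√(w * b / √Real.pi)) 0 1 0 x * star (vec (√(w * b / √Real.pi)) 0 1 0 y)
      + vec (√(w / √Real.pi)) (-c) 0 2 x * star (vec (√(w / √Real.pi)) (-c) 0 2 y)
    unfold Kg vec
    simp only [RCLike.star_def, Complex.conj_ofReal]
    rw [← Complex.ofReal_mul, ← Complex.ofReal_mul, ← Complex.ofReal_mul, ← Complex.ofReal_add,
      ← Complex.ofReal_add]
    congr 1
    rw [exp_two]
    have e0 : w / √Real.pi * a = √(w * a / √Real.pi) ^ 2 := by rw [h0]; ring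
    have e1 : w / √Real.pi * b = √(w * b / √Real.pi) ^ 2 := by rw [h1]; ring
    linear_combination (Real.exp (-x ^ 2 / 2) * Real.exp (-y ^ 2 / 2)) * e0
      + (x * y * Real.exp (-x ^ 2 / 2) * Real.exp (-y ^ 2 / 2)) * e1
      - ((2 * x ^ 2 - c) * (2 * y ^ 2 - c) * Real.exp (-x ^ 2 / 2) * Real.exp (-y ^ 2 / 2)) * h2

theorem Kg_wigner (w a b c x p : ℝ) : wigner (Kg w a b c) x p
    = ((w / Real.pi * Real.exp (-x ^ 2 - p ^ 2) * (a + b * x ^ 2 + 4 * x ^ 4 - 4 * c * x ^ 2 + c ^ 2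
      + (-b - 8 * x ^ 2 - 4 * c) * (1 / 2 - p ^ 2) + 4 * (3 / 4 - 3 * p ^ 2 + p ^ 4)) : ℝ) : ℂ) := by
  unfold wigner
  have e : (fun y : ℝ => Kg w a b c (x + y) (x - y) * cexp (-(2 * I * p * y)))
      = fun y : ℝ => ((w / √Real.pi * Real.exp (-x ^ 2) : ℝ) : ℂ) *
        ((((a + b * x ^ 2 + 4 * x ^ 4 - 4 * c * x ^ 2 + c ^ 2 : ℝ) : ℂ) + (0 : ℂ) * y
          + ((-b - 8 * x ^ 2 - 4 * c : ℝ) : ℂ) * (y : ℂ) ^ 2 + (0 : ℂ) * (y : ℂ) ^ 3
          + (4 : ℂ) * (y : ℂ) ^ 4) * Ep p y) := by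
    funext y
    have e1 : Ep p y = ((Real.exp (-y ^ 2) : ℝ) : ℂ) * cexp (-(2 * I * p * y)) := by
      unfold Ep
      rw [Complex.ofReal_exp, ← Complex.exp_add]
      congr 1
      push_cast
      ring
    have e2 : Real.exp (-((x + y) ^ 2 + (x - y) ^ 2) / 2) = Real.exp (-x ^ 2) * Real.exp (-y ^ 2) := by
      rw [← Real.exp_add]
      congr 1
      ring
    rw [e1]
    unfold Kg
    rw [e2]
    push_cast
    ring
  rw [e, integral_const_mul, moments]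
  have hp := sqrtpi.ne'
  have e3 : Real.exp (-x ^ 2 - p ^ 2) = Real.exp (-x ^ 2) * Real.exp (-p ^ 2) := by
    rw [← Real.exp_add]
    congr 1
  have e4 : cexp (-(p : ℂ) ^ 2) = ((Real.exp (-p ^ 2) : ℝ) : ℂ) := by
    rw [Complex.ofReal_exp]
    congr 1
    push_cast
    ring
  have hp' : (√Real.pi : ℂ) ≠ 0 := by exact_mod_cast hp
  have hpi : (Real.pi : ℂ) ≠ 0 := by exact_mod_cast Real.pi_ne_zero
  rw [e3, e4]
  push_cast
  field_simp
  ring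

theorem Kg_pos (w a b c : ℝ) (hw : 0 ≤ w)
    (h : ∀ x p : ℝ, 0 ≤ a + b * x ^ 2 + 4 * x ^ 4 - 4 * c * x ^ 2 + c ^ 2
      + (-b - 8 * x ^ 2 - 4 * c) * (1 / 2 - p ^ 2) + 4 * (3 / 4 - 3 * p ^ 2 + p ^ 4)) :
    WignerPositive (Kg w a b c) := by
  intro x p
  exact ⟨_, mul_nonneg (mul_nonneg (div_nonneg hw Real.pi_pos.le) (Real.exp_pos _).le) (h x p),
    Kg_wigner w a b c x p⟩

/-- the input vector -/
noncomputable def ψ₀ : ℝ → ℂ := vec (√(1 / √Real.pi)) 1 0 (-4 / 3)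

/-- the vacuum -/
noncomputable def φ₀ : ℝ → ℂ := vec (√(1 / √Real.pi)) 1 0 0

theorem s_sq : √(1 / √Real.pi) ^ 2 = 1 / √Real.pi := Real.sq_sqrt (by positivity)

theorem vec_fock (s α β γ : ℝ) : FockBounded (vec s α β γ) := by
  refine ⟨Polynomial.C (s : ℂ) * (Polynomial.C (α : ℂ) + Polynomial.C (β : ℂ) * Polynomial.X
    + Polynomial.C (γ : ℂ) * Polynomial.X ^ 2), fun x => ?_⟩
  unfold vec
  simp

theorem ψ₀_norm : Normalised ψ₀ := by
  unfold Normalised ψ₀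
  rw [vec_integral, s_sq]
  have hp := sqrtpi.ne'
  field_simp
  norm_num

theorem φ₀_norm : Normalised φ₀ := by
  unfold Normalised φ₀
  rw [vec_integral, s_sq]
  have hp := sqrtpi.ne'
  field_simp
  norm_num

theorem bs_eq (x y : ℝ) : beamSplitter ψ₀ φ₀ x y = Kg (1 / 9) 2 8 2 x y := by
  unfold beamSplitter
  have e : (fun z : ℝ => (ψ₀ ((x - z) / √2) * φ₀ ((x + z) / √2)) *
      star (ψ₀ ((y - z) / √2) * φ₀ ((y + z) / √2)))
      = fun z : ℝ => (((1 / (9 * Real.pi) * Real.exp (-(x ^ 2 + y ^ 2) / 2)) *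
        (((3 - 2 * x ^ 2) * (3 - 2 * y ^ 2) + (4 * y * (3 - 2 * x ^ 2) + 4 * x * (3 - 2 * y ^ 2)) * z
          + (-2 * (3 - 2 * x ^ 2) - 2 * (3 - 2 * y ^ 2) + 16 * x * y) * z ^ 2
          + (-8 * x - 8 * y) * z ^ 3 + 4 * z ^ 4) * Real.exp (-z ^ 2)) : ℝ) : ℂ) := by
    funext z
    unfold ψ₀ φ₀ vec
    rw [← Complex.ofReal_mul, ← Complex.ofReal_mul]
    simp only [RCLike.star_def, Complex.conj_ofReal]
    rw [← Complex.ofReal_mul]
    congr 1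
    have h2 : √2 ^ 2 = (2 : ℝ) := Real.sq_sqrt (by norm_num)
    simp only [div_pow, h2]
    have hE : Real.exp (-(x ^ 2 + y ^ 2) / 2) * Real.exp (-z ^ 2)
        = Real.exp (-((x - z) ^ 2 / 2) / 2) * Real.exp (-((x + z) ^ 2 / 2) / 2) *
          (Real.exp (-((y - z) ^ 2 / 2) / 2) * Real.exp (-((y + z) ^ 2 / 2) / 2)) := by
      rw [← Real.exp_add, ← Real.exp_add, ← Real.exp_add, ← Real.exp_add]
      congr 1
      ring
    have hs : √(1 / √Real.pi) ^ 2 * √(1 / √Real.pi) ^ 2 = 1 / Real.pi := by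
      rw [s_sq]
      have : √Real.pi ^ 2 = Real.pi := Real.sq_sqrt Real.pi_pos.le
      have hp := sqrtpi.ne'
      field_simp
      linarith
    calc _ = (√(1 / √Real.pi) ^ 2 * √(1 / √Real.pi) ^ 2) *
          (1 + -4 / 3 * ((x - z) ^ 2 / 2)) * (1 + -4 / 3 * ((y - z) ^ 2 / 2)) *
          (Real.exp (-((x - z) ^ 2 / 2) / 2) * Real.exp (-((x + z) ^ 2 / 2) / 2) *
          (Real.exp (-((y - z) ^ 2 / 2) / 2) * Real.exp (-((y + z) ^ 2 / 2) / 2))) := by ring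
      _ = _ := by
        rw [hs, ← hE]
        have hpi := Real.pi_ne_zero
        field_simp
        ring
  rw [e, integral_complex_ofReal, integral_const_mul, moments_real]
  unfold Kg
  congr 1
  have hp := sqrtpi.ne'
  have h2 : √Real.pi ^ 2 = Real.pi := Real.sq_sqrt Real.pi_pos.le
  have e5 : √Real.pi / Real.pi = 1 / √Real.pi := by
    rw [div_eq_div_iff Real.pi_ne_zero hp, ← sq, h2, one_mul]
  have : (1 / (9 * Real.pi) * Real.exp (-(x ^ 2 + y ^ 2) / 2)) *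
      (((3 - 2 * x ^ 2) * (3 - 2 * y ^ 2) + (-2 * (3 - 2 * x ^ 2) - 2 * (3 - 2 * y ^ 2)
        + 16 * x * y) / 2 + 3 * 4 / 4) * √Real.pi)
      = (√Real.pi / Real.pi) * (1 / 9) * (2 + 8 * (x * y) + (2 * x ^ 2 - 2) * (2 * y ^ 2 - 2))
        * Real.exp (-(x ^ 2 + y ^ 2) / 2) := by
    have hpi := Real.pi_ne_zero
    field_simp
    ring
  rw [this, e5]
  ring

end Pool.Agent.X244.BS
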